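import Pool.Agent.R34.DP.Stm

/-!
# Piece PO: the Gaussian `L¹` Poincaré inequality of Maurey and Pisier
-/

set_option autoImplicit false

open MeasureTheory ProbabilityTheory Set Filter
open scoped NNReal ENNReal Topology

namespace R668.DPPO

open R34.DP

variable {n : ℕ}

instance gaussian_gam (n : ℕ) : IsGaussian (gam n) := by
  have e : (gam n).map (PiLp.continuousLinearEquiv 2 ℝ (fun _ : Fin n => ℝ)).symm =
      stdGaussian (EuclideanSpace ℝ (Fin n)) := map_pi_eq_stdGaussian (ι := Fin n)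
  have h : IsGaussian ((gam n).map (PiLp.continuousLinearEquiv 2 ℝ (fun _ : Fin n => ℝ)).symm) := by
    rw [e]
    infer_instance
  exact (isGaussian_map_equiv_iff _).1 h

instance gaussian_g1 : IsGaussian g1 := by unfold g1; infer_instance

theorem integrable_coord (i : Fin n) : Integrable (fun x : Fin n → ℝ => x i) (gam n) :=
  integrable_eval (μ := fun _ : Fin n => g1) (i := i) IsGaussian.integrable_id

theorem mean_gam (n : ℕ) : ∫ x, x ∂(gam n) = 0 := by
  ext i
  rw [eval_integral fun i => integrable_coord i]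
  have h := integral_comp_eval (μ := fun _ : Fin n => g1) (i := i) (f := fun t : ℝ => t)
    (by fun_prop)
  refine h.trans ?_
  simp [g1]

theorem rot_inv (n : ℕ) (θ : ℝ) :
    ((gam n).prod (gam n)).map (ContinuousLinearMap.rotation θ) = (gam n).prod (gam n) :=
  IsGaussian.map_rotation_eq_self (mean_gam n) θ

theorem g1_ac : g1 ≪ (volume : Measure ℝ) := gaussianReal_absolutelyContinuous 0 one_ne_zero

theorem gam_ac : ∀ n : ℕ, gam n ≪ (volume : Measure (Fin n → ℝ))
  | 0 => by
    rw [gam, volume_pi, Measure.pi_of_empty, Measure.pi_of_empty]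
  | n + 1 => by
    let e := MeasurableEquiv.piFinSuccAbove (fun _ : Fin (n + 1) => ℝ) 0
    have h1 : MeasurePreserving e (gam (n + 1)) (g1.prod (gam n)) :=
      measurePreserving_piFinSuccAbove (fun _ => g1) 0
    have h2 : MeasurePreserving e volume (volume.prod volume) :=
      volume_preserving_piFinSuccAbove (fun _ : Fin (n + 1) => ℝ) 0
    have h3 : (g1.prod (gam n)) ≪ ((volume : Measure ℝ).prod (volume : Measure (Fin n → ℝ))) :=
      g1_ac.prod (gam_ac n)
    have h4 := h3.map e.symm.measurable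
    rw [(h1.symm e).map_eq, (h2.symm e).map_eq] at h4
    exact h4

/-! ### linear functionals -/

theorem lin_eq (L : (Fin n → ℝ) →L[ℝ] ℝ) (y : Fin n → ℝ) :
    L y = ∑ i, L (Pi.single i 1) * y i := by
  conv_lhs => rw [← Finset.univ_sum_single y, map_sum]
  refine Finset.sum_congr rfl fun i _ => ?_
  have : (Pi.single i (y i) : Fin n → ℝ) = y i • Pi.single i 1 := by
    rw [← Pi.single_smul]
    simp
  rw [this, map_smul, smul_eq_mul, mul_comm]

theorem var_lin (L : (Fin n → ℝ) →L[ℝ] ℝ) :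
    Var[fun y => L y; gam n] = ∑ i, (L (Pi.single i 1)) ^ 2 := by
  have h : (fun y => L y) = ∑ i, (fun y : Fin n → ℝ => L (Pi.single i 1) * y i) := by
    ext y
    rw [lin_eq, Finset.sum_apply]
  rw [h, gam, variance_sum_pi (X := fun i t => L (Pi.single i 1) * t)]
  · refine Finset.sum_congr rfl fun i _ => ?_
    change Var[fun x ↦ _ * (id x); g1] = _
    rw [variance_const_mul, g1, variance_id_gaussianReal]
    simp
  · intro i
    exact (IsGaussian.memLp_two_id (μ := g1)).const_mul _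

theorem memLp_lin (L : (Fin n → ℝ) →L[ℝ] ℝ) : MemLp (fun y => L y) 2 (gam n) :=
  IsGaussian.memLp_dual (gam n) L 2 (by norm_num)

theorem abs_lin_le (L : (Fin n → ℝ) →L[ℝ] ℝ) :
    ∫ y, |L y| ∂(gam n) ≤ Real.sqrt (∑ i, (L (Pi.single i 1)) ^ 2) := by
  have hm := memLp_lin L
  have h0 : ∫ y, L y ∂(gam n) = 0 := by
    rw [L.integral_comp_id_comm IsGaussian.integrable_id, mean_gam, map_zero]
  have h1 := variance_eq_sub hm
  have h2 := variance_eq_sub hm.abs
  have h3 : 0 ≤ Var[fun y => |L y|; gam n] := variance_nonneg _ _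
  rw [var_lin] at h1
  apply Real.le_sqrt_of_sq_le
  have h4 : ∫ y, ((fun y => L y) ^ 2) y ∂(gam n) = ∫ y, ((fun y => |L y|) ^ 2) y ∂(gam n) := by
    congr 1
    ext y
    simp [sq_abs]
  have h5 : Var[fun y => |L y|; gam n] = ∫ y, ((fun y => |L y|) ^ 2) y ∂(gam n) -
    (∫ y, |L y| ∂(gam n)) ^ 2 := h2
  have h6 : ∑ i, (L (Pi.single i 1)) ^ 2 = ∫ y, ((fun y => L y) ^ 2) y ∂(gam n) -
    (∫ y, L y ∂(gam n)) ^ 2 := h1
  rw [h0] at h6
  rw [h6, h4]
  linarith [h5, h3]

/-! ### rotations -/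

/-- the rotated point -/
noncomputable def rot (θ : ℝ) (p : (Fin n → ℝ) × (Fin n → ℝ)) : Fin n → ℝ :=
  Real.cos θ • p.1 + Real.sin θ • p.2

theorem rot_comp (θ δ : ℝ) (p : (Fin n → ℝ) × (Fin n → ℝ)) :
    rot δ (ContinuousLinearMap.rotation θ p) = rot (θ + δ) p := by
  simp only [rot, ContinuousLinearMap.rotation_apply, Real.cos_add, Real.sin_add]
  module

theorem rot_zero (p : (Fin n → ℝ) × (Fin n → ℝ)) : rot 0 p = p.1 := by
  simp [rot]

theorem rot_pi (p : (Fin n → ℝ) × (Fin n → ℝ)) : rot Real.pi p = - p.1 := by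
  simp [rot]

theorem continuous_rot (θ : ℝ) : Continuous (rot (n := n) θ) := by
  unfold rot
  fun_prop

theorem norm_rot (θ : ℝ) (p : (Fin n → ℝ) × (Fin n → ℝ)) : ‖rot θ p‖ ≤ ‖p.1‖ + ‖p.2‖ := by
  unfold rot
  refine (norm_add_le _ _).trans ?_
  rw [norm_smul, norm_smul, Real.norm_eq_abs, Real.norm_eq_abs]
  have h1 := Real.abs_cos_le_one θ
  have h2 := Real.abs_sin_le_one θ
  have h3 := norm_nonneg p.1
  have h4 := norm_nonneg p.2
  nlinarith

theorem norm_rot_sub (δ : ℝ) (p : (Fin n → ℝ) × (Fin n → ℝ)) :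
    ‖rot 0 p - rot δ p‖ ≤ |δ| * (‖p.1‖ + ‖p.2‖) := by
  have h : rot 0 p - rot δ p = (Real.cos 0 - Real.cos δ) • p.1 + (Real.sin 0 - Real.sin δ) • p.2 := by
    unfold rot
    module
  rw [h]
  refine (norm_add_le _ _).trans ?_
  rw [norm_smul, norm_smul, Real.norm_eq_abs, Real.norm_eq_abs]
  have h1 : |Real.cos 0 - Real.cos δ| ≤ |δ| := by
    have := Real.lipschitzWith_cos.dist_le_mul 0 δ
    rw [Real.dist_eq, Real.dist_eq] at this
    simpa using this
  have h2 : |Real.sin 0 - Real.sin δ| ≤ |δ| := by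
    have := Real.lipschitzWith_sin.dist_le_mul 0 δ
    rw [Real.dist_eq, Real.dist_eq] at this
    simpa using this
  have h3 := norm_nonneg p.1
  have h4 := norm_nonneg p.2
  nlinarith

theorem int_norm_fst (n : ℕ) : Integrable (fun p : (Fin n → ℝ) × (Fin n → ℝ) => ‖p.1‖)
    ((gam n).prod (gam n)) :=
  (IsGaussian.integrable_id (μ := gam n)).norm.comp_fst (gam n)

theorem int_norm_snd (n : ℕ) : Integrable (fun p : (Fin n → ℝ) × (Fin n → ℝ) => ‖p.2‖)
    ((gam n).prod (gam n)) :=
  (IsGaussian.integrable_id (μ := gam n)).norm.comp_snd (gam n)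

variable {g : (Fin n → ℝ) → ℝ} {K : ℝ≥0}

theorem int_g (hg : LipschitzWith K g) (θ : ℝ) :
    Integrable (fun p : (Fin n → ℝ) × (Fin n → ℝ) => g (rot θ p)) ((gam n).prod (gam n)) := by
  have hb : Integrable (fun p : (Fin n → ℝ) × (Fin n → ℝ) => |g 0| + K * (‖p.1‖ + ‖p.2‖))
      ((gam n).prod (gam n)) :=
    (integrable_const _).add (((int_norm_fst n).add (int_norm_snd n)).const_mul _)
  refine hb.mono' ((hg.continuous.comp (continuous_rot θ)).aestronglyMeasurable) ?_
  refine Eventually.of_forall fun p => ?_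
  have h1 := hg.dist_le_mul (rot θ p) 0
  rw [Real.dist_eq, dist_zero_right] at h1
  have h2 := norm_rot θ p
  have h3 : |g (rot θ p)| ≤ |g 0| + |g (rot θ p) - g 0| := by
    have := abs_add_le (g 0) (g (rot θ p) - g 0)
    rwa [add_sub_cancel] at this
  rw [Real.norm_eq_abs]
  have h4 : (K : ℝ) * ‖rot θ p‖ ≤ K * (‖p.1‖ + ‖p.2‖) :=
    mul_le_mul_of_nonneg_left h2 K.coe_nonneg
  linarith

theorem shift (hg : LipschitzWith K g) (θ δ : ℝ) :
    ∫ p, |g (rot θ p) - g (rot (θ + δ) p)| ∂((gam n).prod (gam n)) =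
      ∫ p, |g (rot 0 p) - g (rot δ p)| ∂((gam n).prod (gam n)) := by
  have hc : Continuous fun p : (Fin n → ℝ) × (Fin n → ℝ) => |g (rot 0 p) - g (rot δ p)| :=
    ((hg.continuous.comp (continuous_rot 0)).sub (hg.continuous.comp (continuous_rot δ))).abs
  have h := integral_map (μ := (gam n).prod (gam n)) (φ := ContinuousLinearMap.rotation θ)
    (ContinuousLinearMap.rotation θ).continuous.aemeasurable
    (f := fun p => |g (rot 0 p) - g (rot δ p)|) hc.aestronglyMeasurable
  rw [rot_inv] at h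
  rw [h]
  simp only [rot_comp, add_zero]

theorem chain (hg : LipschitzWith K g) (m : ℕ) :
    ∫ x, |g x - g (-x)| ∂(gam n) ≤
      ∫ p, ((m : ℝ) + 1) * |g (rot 0 p) - g (rot (Real.pi / ((m : ℝ) + 1)) p)|
        ∂((gam n).prod (gam n)) := by
  set δ := Real.pi / ((m : ℝ) + 1) with hδ
  have hm : ((m : ℝ) + 1) * δ = Real.pi := by
    rw [hδ]
    field_simp
  have h1 : ∫ x, |g x - g (-x)| ∂(gam n) =
      ∫ p, |g (rot 0 p) - g (rot Real.pi p)| ∂((gam n).prod (gam n)) := by
    simp only [rot_zero, rot_pi]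
    rw [integral_fun_fst (fun x => |g x - g (-x)|)]
    simp
  have hi : ∀ θ θ' : ℝ, Integrable (fun p : (Fin n → ℝ) × (Fin n → ℝ) =>
      |g (rot θ p) - g (rot θ' p)|) ((gam n).prod (gam n)) := fun θ θ' =>
    ((int_g hg θ).sub (int_g hg θ')).abs
  have h2 : ∀ k : ℕ, ∫ p, |g (rot 0 p) - g (rot (k * δ) p)| ∂((gam n).prod (gam n)) ≤
      k * ∫ p, |g (rot 0 p) - g (rot δ p)| ∂((gam n).prod (gam n)) := by
    intro k
    induction k with
    | zero => simp
    | succ k ih =>
      have e1 : ∫ p, |g (rot 0 p) - g (rot ((k + 1 : ℕ) * δ) p)| ∂((gam n).prod (gam n)) ≤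
          ∫ p, (|g (rot 0 p) - g (rot (k * δ) p)| + |g (rot (k * δ) p) - g (rot (k * δ + δ) p)|)
            ∂((gam n).prod (gam n)) := by
        apply integral_mono (hi _ _) ((hi _ _).add (hi _ _))
        intro p
        have : ((k + 1 : ℕ) : ℝ) * δ = k * δ + δ := by push_cast; ring
        simp only [this]
        exact abs_sub_le _ _ _
      rw [integral_add (hi _ _) (hi _ _), shift hg] at e1
      push_cast at e1 ⊢
      linarith
  have h3 := h2 (m + 1)
  push_cast at h3
  rw [hm] at h3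
  rw [h1, integral_const_mul]
  exact h3

theorem lim (hg : LipschitzWith K g) :
    Tendsto (fun m : ℕ => ∫ p, ((m : ℝ) + 1) *
      |g (rot 0 p) - g (rot (Real.pi / ((m : ℝ) + 1)) p)| ∂((gam n).prod (gam n))) atTop
      (𝓝 (∫ p, Real.pi * |fderiv ℝ g p.1 p.2| ∂((gam n).prod (gam n)))) := by
  have hd : ∀ᵐ x ∂(gam n), DifferentiableAt ℝ g x :=
    (gam_ac n).ae_le hg.ae_differentiableAt
  have hd2 : ∀ᵐ p ∂((gam n).prod (gam n)), DifferentiableAt ℝ g p.1 :=
    Measure.quasiMeasurePreserving_fst.ae hd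
  apply tendsto_integral_of_dominated_convergence
    (fun p : (Fin n → ℝ) × (Fin n → ℝ) => Real.pi * (K * (‖p.1‖ + ‖p.2‖)))
  · intro m
    exact (continuous_const.mul ((hg.continuous.comp (continuous_rot 0)).sub
      (hg.continuous.comp (continuous_rot _))).abs).aestronglyMeasurable
  · exact (((int_norm_fst n).add (int_norm_snd n)).const_mul _).const_mul _
  · intro m
    refine Eventually.of_forall fun p => ?_
    have hm : (0 : ℝ) < (m : ℝ) + 1 := by positivity
    rw [Real.norm_eq_abs, abs_mul, abs_abs, abs_of_pos hm]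
    have h1 := hg.dist_le_mul (rot 0 p) (rot (Real.pi / ((m : ℝ) + 1)) p)
    rw [Real.dist_eq, dist_eq_norm] at h1
    have h2 := norm_rot_sub (Real.pi / ((m : ℝ) + 1)) p
    have h3 : |Real.pi / ((m : ℝ) + 1)| = Real.pi / ((m : ℝ) + 1) :=
      abs_of_pos (div_pos Real.pi_pos hm)
    rw [h3] at h2
    calc ((m : ℝ) + 1) * |g (rot 0 p) - g (rot (Real.pi / ((m : ℝ) + 1)) p)|
        ≤ ((m : ℝ) + 1) * (K * (Real.pi / ((m : ℝ) + 1) * (‖p.1‖ + ‖p.2‖))) :=
          mul_le_mul_of_nonneg_left (h1.trans (mul_le_mul_of_nonneg_left h2 K.coe_nonneg)) hm.le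
      _ = Real.pi * (K * (‖p.1‖ + ‖p.2‖)) := by
          field_simp
  · filter_upwards [hd2] with p hp
    have hγ : HasDerivAt (fun t : ℝ => rot t p) p.2 0 := by
      have h1 := ((Real.hasDerivAt_cos 0).smul_const p.1).add
        ((Real.hasDerivAt_sin 0).smul_const p.2)
      have h2 : HasDerivAt (fun t : ℝ => rot t p) (-Real.sin 0 • p.1 + Real.cos 0 • p.2) 0 := h1
      simpa using h2
    have hg0 : HasFDerivAt g (fderiv ℝ g p.1) (rot 0 p) := by
      rw [rot_zero]
      exact hp.hasFDerivAt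
    have hcomp : HasDerivAt (fun t : ℝ => g (rot t p)) (fderiv ℝ g p.1 p.2) 0 :=
      hg0.comp_hasDerivAt 0 hγ
    rw [hasDerivAt_iff_tendsto_slope_zero] at hcomp
    have ht : Tendsto (fun m : ℕ => Real.pi / ((m : ℝ) + 1)) atTop (𝓝[≠] 0) := by
      rw [tendsto_nhdsWithin_iff]
      refine ⟨?_, Eventually.of_forall fun m => ?_⟩
      · have := tendsto_one_div_add_atTop_nhds_zero_nat (𝕜 := ℝ)
        have h2 := this.const_mul Real.pi
        rw [mul_zero] at h2
        refine h2.congr fun m => ?_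
        ring
      · have hm : (0 : ℝ) < (m : ℝ) + 1 := by positivity
        exact (div_pos Real.pi_pos hm).ne'
    have h3 := ((hcomp.comp ht).abs).const_mul Real.pi
    refine h3.congr fun m => ?_
    have hm : (0 : ℝ) < (m : ℝ) + 1 := by positivity
    simp only [Function.comp_apply, zero_add, smul_eq_mul]
    rw [abs_mul, abs_of_pos (inv_pos.2 (div_pos Real.pi_pos hm)), abs_sub_comm]
    have hpi := Real.pi_pos.ne'
    field_simp

end R668.DPPO

open R34.DP R668.DPPO in
theorem R668.DPPO.t_PO : S_PO := by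
  intro n g K hg
  have h1 : ∫ x, |g x - g (-x)| ∂(gam n) ≤
      ∫ p, Real.pi * |fderiv ℝ g p.1 p.2| ∂((gam n).prod (gam n)) :=
    ge_of_tendsto (lim hg) (Eventually.of_forall fun m => chain hg m)
  refine h1.trans ?_
  have hK : ∀ x, ‖fderiv ℝ g x‖ ≤ K := fun x => norm_fderiv_le_of_lipschitz ℝ hg
  have hmeas : ∀ i : Fin n, Measurable fun x => fderiv ℝ g x (Pi.single i 1) := fun i =>
    measurable_fderiv_apply_const ℝ g _
  have hm2 : Measurable fun p : (Fin n → ℝ) × (Fin n → ℝ) => Real.pi * |fderiv ℝ g p.1 p.2| := by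
    have : (fun p : (Fin n → ℝ) × (Fin n → ℝ) => Real.pi * |fderiv ℝ g p.1 p.2|) =
        fun p => Real.pi * |∑ i, fderiv ℝ g p.1 (Pi.single i 1) * p.2 i| := by
      ext p
      rw [← lin_eq]
    rw [this]
    refine measurable_const.mul (measurable_abs.comp ?_)
    refine Finset.measurable_sum _ fun i _ => ?_
    exact ((hmeas i).comp measurable_fst).mul ((measurable_pi_apply i).comp measurable_snd)
  have hint : Integrable (fun p : (Fin n → ℝ) × (Fin n → ℝ) => Real.pi * |fderiv ℝ g p.1 p.2|)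
      ((gam n).prod (gam n)) := by
    refine (((int_norm_snd n).const_mul (K : ℝ)).const_mul Real.pi).mono'
      hm2.aestronglyMeasurable (Eventually.of_forall fun p => ?_)
    rw [Real.norm_eq_abs, abs_mul, abs_abs, abs_of_pos Real.pi_pos]
    refine mul_le_mul_of_nonneg_left ?_ Real.pi_pos.le
    have := (fderiv ℝ g p.1).le_opNorm p.2
    rw [Real.norm_eq_abs] at this
    exact this.trans (mul_le_mul_of_nonneg_right (hK _) (norm_nonneg _))
  rw [integral_prod _ hint, ← integral_const_mul]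
  refine integral_mono hint.integral_prod_left ?_ fun x => ?_
  · have hm3 : Measurable fun x => Real.pi *
        Real.sqrt (∑ i, (fderiv ℝ g x (Pi.single i 1)) ^ 2) := by
      refine measurable_const.mul (Real.continuous_sqrt.measurable.comp ?_)
      exact Finset.measurable_sum _ fun i _ => (hmeas i).pow_const 2
    refine (integrable_const (Real.pi * Real.sqrt (∑ _i : Fin n, (K : ℝ) ^ 2))).mono'
      hm3.aestronglyMeasurable (Eventually.of_forall fun x => ?_)
    rw [Real.norm_eq_abs, abs_mul, abs_of_pos Real.pi_pos, abs_of_nonneg (Real.sqrt_nonneg _)]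
    refine mul_le_mul_of_nonneg_left (Real.sqrt_le_sqrt (Finset.sum_le_sum fun i _ => ?_))
      Real.pi_pos.le
    have h2 := (fderiv ℝ g x).le_opNorm (Pi.single i 1)
    have h3 : ‖(Pi.single i 1 : Fin n → ℝ)‖ = 1 := by
      rw [Pi.norm_single, norm_one]
    rw [h3, mul_one, Real.norm_eq_abs] at h2
    exact sq_le_sq' (by linarith [neg_abs_le (fderiv ℝ g x (Pi.single i 1)), hK x])
      ((le_abs_self _).trans (h2.trans (hK x)))
  · show ∫ y, Real.pi * |fderiv ℝ g x y| ∂(gam n) ≤ _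
    rw [integral_const_mul]
    exact mul_le_mul_of_nonneg_left (abs_lin_le _) Real.pi_pos.le
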